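import Pool.Agent.T2h19.AP.Stm2

set_option autoImplicit false

/-!
# Project AP, task JAC
-/

open MvPolynomial

namespace Pool.Agent.T2h89.AP

open Pool.Agent.T2h19.AP

/-- the polynomials `L_j ∘ γ0 ∘ φ0` -/
noncomputable def NN : Fin 7 → MvPolynomial (Fin 6) ℂ :=
  ![X 1, X 0 - X 3, 1, X 2 * X 1 + X 3 ^ 2 - X 0 * X 3 - X 1 * X 5, - X 3,
    X 1 * (X 1 * X 4 - X 2 * X 3) - (X 2 * X 1 + X 3 ^ 2 - X 0 * X 3 - X 1 * X 5) * X 3,
    X 3 ^ 2 - X 1 * X 5]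

/-- linear forms on the derivative -/
theorem lin_dev (l : (I4 → ℂ) →ₗ[ℂ] ℂ) (φ : I4 → MvPolynomial (Fin 6) ℂ) (a : Fin 6) (u : Fin 6 → ℂ) :
    l (dev φ a u) = eval u (pderiv a (pull φ (form l))) := by
  have h1 : pull φ (form l) = ∑ i, C (l (Pi.single i 1)) * φ i := by
    unfold pull form
    rw [map_sum]
    refine Finset.sum_congr rfl fun i _ => ?_
    rw [map_mul, aeval_X]
    congr 1
    exact aeval_C _ _
  rw [h1, map_sum, map_sum]
  have h2 : dev φ a u = ∑ i, (dev φ a u i) • (Pi.single i (1 : ℂ) : I4 → ℂ) := by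
    ext j
    simp [Finset.sum_apply, Pi.single_apply]
  conv_lhs => rw [h2]
  rw [map_sum]
  refine Finset.sum_congr rfl fun i _ => ?_
  rw [map_smul, pderiv_C_mul, smul_eq_mul, map_mul, eval_C, mul_comm]
  rfl

theorem pull_eq (h1 : S_EVA) (j : Fin 7) :
    pull φ0 (form (L0 j ∘ₗ γ0.toLinearMap)) = NN j := by
  apply MvPolynomial.funext
  intro u
  rw [eval_pull, eval_form, h1.1 u]
  fin_cases j <;>
    simp [L0, NN, γ0, σ0, co, wedge, tl, mA, mB, LinearEquiv.funCongrLeft, LinearMap.funLeft,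
      Matrix.trace, Fin.sum_univ_succ, Matrix.scalar_apply, Matrix.diagonal_apply, Fin.rev] <;> ring

/-- the matrix -/
noncomputable def M7 (u : Fin 6 → ℂ) : Matrix (Fin 7) (Fin 7) ℂ :=
  Matrix.of ![fun j => eval u (NN j), fun j => eval u (pderiv 0 (NN j)), fun j => eval u (pderiv 1 (NN j)),
    fun j => eval u (pderiv 2 (NN j)), fun j => eval u (pderiv 3 (NN j)),
    fun j => eval u (pderiv 4 (NN j)), fun j => eval u (pderiv 5 (NN j))]

theorem entry (h1 : S_EVA) (u : Fin 6 → ℂ) (i j : Fin 7) :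
    L0 j (γ0 (frame φ0 u i)) = M7 u i j := by
  have hp := pull_eq h1 j
  have h0 : L0 j (γ0 (ev φ0 u)) = eval u (NN j) := by
    rw [← hp, eval_pull, eval_form]; rfl
  have h2 : ∀ a : Fin 6, L0 j (γ0 (dev φ0 a u)) = eval u (pderiv a (NN j)) := by
    intro a
    rw [← hp, ← lin_dev]; rfl
  refine Fin.cases ?_ (fun a => ?_) i
  · rw [frame_zero, h0]; rfl
  · rw [frame_succ, h2]
    fin_cases a <;> rfl

theorem M7_eq (u : Fin 6 → ℂ) : M7 u =
    !![u 1, u 0 - u 3, 1, u 2 * u 1 + u 3 ^ 2 - u 0 * u 3 - u 1 * u 5, - u 3,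
        u 1 * (u 1 * u 4 - u 2 * u 3) - (u 2 * u 1 + u 3 ^ 2 - u 0 * u 3 - u 1 * u 5) * u 3,
        u 3 ^ 2 - u 1 * u 5;
      0, 1, 0, - u 3, 0, u 3 ^ 2, 0;
      1, 0, 0, u 2 - u 5, 0, (u 1 * u 4 - u 2 * u 3) + u 1 * u 4 - (u 2 - u 5) * u 3, - u 5;
      0, 0, 0, u 1, 0, - (2 * u 1 * u 3), 0;
      0, -1, 0, 2 * u 3 - u 0, -1,
        - (u 1 * u 2) - (2 * u 3 - u 0) * u 3 - (u 2 * u 1 + u 3 ^ 2 - u 0 * u 3 - u 1 * u 5), 2 * u 3;
      0, 0, 0, 0, 0, u 1 ^ 2, 0;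
      0, 0, 0, - u 1, 0, u 1 * u 3, - u 1] := by
  ext i j
  fin_cases i <;> fin_cases j <;>
    simp [M7, NN, pderiv_X, Pi.single_apply, Derivation.leibniz_pow] <;> ring

theorem det6 (p0 p1 p2 p3 p4 p5 e g : ℂ) : Matrix.det
    !![0, 1, - p3, 0, p3 ^ 2, 0;
      1, 0, p2 - p5, 0, e, - p5;
      0, 0, p1, 0, - (2 * p1 * p3), 0;
      0, -1, 2 * p3 - p0, -1, g, 2 * p3;
      0, 0, 0, 0, p1 ^ 2, 0;
      0, 0, - p1, 0, p1 * p3, - p1] = - p1 ^ 4 + 0 * p4 := by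
  rw [Matrix.det_succ_row _ 4, Fin.sum_univ_six]
  have hB : (!![0, 1, - p3, 0, p3 ^ 2, 0;
      1, 0, p2 - p5, 0, e, - p5;
      0, 0, p1, 0, - (2 * p1 * p3), 0;
      0, -1, 2 * p3 - p0, -1, g, 2 * p3;
      0, 0, 0, 0, p1 ^ 2, 0;
      0, 0, - p1, 0, p1 * p3, - p1] : Matrix (Fin 6) (Fin 6) ℂ).submatrix (Fin.succAbove 4) (Fin.succAbove 4) =
      !![0, 1, - p3, 0, 0;
        1, 0, p2 - p5, 0, - p5;
        0, 0, p1, 0, 0;
        0, -1, 2 * p3 - p0, -1, 2 * p3;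
        0, 0, - p1, 0, - p1] := by
    ext i j
    fin_cases i <;> fin_cases j <;> rfl
  have hC : (!![0, 1, - p3, 0, 0;
        1, 0, p2 - p5, 0, - p5;
        0, 0, p1, 0, 0;
        0, -1, 2 * p3 - p0, -1, 2 * p3;
        0, 0, - p1, 0, - p1] : Matrix (Fin 5) (Fin 5) ℂ).det = - p1 ^ 2 := by
    rw [Matrix.det_succ_row _ 2, Fin.sum_univ_five]
    have hD : (!![0, 1, - p3, 0, 0;
        1, 0, p2 - p5, 0, - p5;
        0, 0, p1, 0, 0;
        0, -1, 2 * p3 - p0, -1, 2 * p3;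
        0, 0, - p1, 0, - p1] : Matrix (Fin 5) (Fin 5) ℂ).submatrix (Fin.succAbove 2) (Fin.succAbove 2) =
        !![0, 1, 0, 0;
          1, 0, 0, - p5;
          0, -1, -1, 2 * p3;
          0, 0, 0, - p1] := by
      ext i j
      fin_cases i <;> fin_cases j <;> rfl
    have hE : (!![0, 1, 0, 0;
          1, 0, 0, - p5;
          0, -1, -1, 2 * p3;
          0, 0, 0, - p1] : Matrix (Fin 4) (Fin 4) ℂ).det = - p1 := by
      simp [Matrix.det_succ_row_zero, Fin.sum_univ_succ, Fin.succAbove]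
    rw [hD, hE]
    simp only [Matrix.of_apply, Matrix.cons_val', Matrix.cons_val, Matrix.cons_val_zero,
      Matrix.cons_val_one, mul_zero, zero_mul, add_zero, zero_add]
    norm_num
    ring
  rw [hB, hC]
  simp only [Matrix.of_apply, Matrix.cons_val', Matrix.cons_val, Matrix.cons_val_zero,
    Matrix.cons_val_one, mul_zero, zero_mul, add_zero, zero_add]
  norm_num
  ring

theorem det_M7 (u : Fin 6 → ℂ) : (M7 u).det = - u 1 ^ 4 := by
  have hA : (M7 u).submatrix (Fin.succAbove 0) (Fin.succAbove 2) =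
      !![0, 1, - u 3, 0, u 3 ^ 2, 0;
      1, 0, u 2 - u 5, 0, (u 1 * u 4 - u 2 * u 3) + u 1 * u 4 - (u 2 - u 5) * u 3, - u 5;
      0, 0, u 1, 0, - (2 * u 1 * u 3), 0;
      0, -1, 2 * u 3 - u 0, -1,
        - (u 1 * u 2) - (2 * u 3 - u 0) * u 3 - (u 2 * u 1 + u 3 ^ 2 - u 0 * u 3 - u 1 * u 5), 2 * u 3;
      0, 0, 0, 0, u 1 ^ 2, 0;
      0, 0, - u 1, 0, u 1 * u 3, - u 1] := by
    rw [M7_eq]
    ext i j
    fin_cases i <;> fin_cases j <;> rfl
  rw [Matrix.det_succ_column _ 2, Fin.sum_univ_seven, hA, det6 _ _ _ _ (u 4)]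
  have h0 : M7 u 0 2 = 1 := by rw [M7_eq]; rfl
  have h1 : M7 u 1 2 = 0 := by rw [M7_eq]; rfl
  have h2 : M7 u 2 2 = 0 := by rw [M7_eq]; rfl
  have h3 : M7 u 3 2 = 0 := by rw [M7_eq]; rfl
  have h4 : M7 u 4 2 = 0 := by rw [M7_eq]; rfl
  have h5 : M7 u 5 2 = 0 := by rw [M7_eq]; rfl
  have h6 : M7 u 6 2 = 0 := by rw [M7_eq]; rfl
  rw [h0, h1, h2, h3, h4, h5, h6]
  norm_num

/-- **JAC.** -/
theorem jac_ (h1 : S_EVA) : S_JAC := by
  constructor
  · intro u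
    rw [omega_apply]
    have h2 : (Matrix.of fun i j => L0 j (γ0 (frame φ0 u i))) = M7 u := by
      ext i j
      exact entry h1 u i j
    have h3 : L0 0 (γ0 (ev φ0 u)) = u 1 := by
      have := entry h1 u 0 0
      rw [frame_zero] at this
      rw [this, M7_eq]
      rfl
    rw [h2, h3, det_M7]
    ring
  · have := pull_eq h1 0
    exact this

end Pool.Agent.T2h89.AP
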